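import Pool.Agent.Lib.MP_dbcba7_co.Mo.Flow

/-! The discharging between blocked and essential pairs with weights on the points. -/

namespace Pool.Agent.FS.SpectralFC

open Finset Pool.Agent.Lib.MP_dbcba7_co.Mo

variable {α : Type*} [DecidableEq α]

theorem out_add (F : Finset (Finset α)) (X : Finset α) :
    ((F ×ˢ X).filter (fun p => p.2 ∉ p.1)).card + (ess F X).card ≤
      ((F ×ˢ X).filter (fun p => p.2 ∈ p.1)).card + (blk F X).card := by
  have h1 := card_filter_add_card_filter_not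
    (s := (F ×ˢ X).filter (fun p => p.2 ∉ p.1)) (fun p => insert p.2 p.1 ∉ F)
  have h2 := card_filter_add_card_filter_not
    (s := (F ×ˢ X).filter (fun p => p.2 ∈ p.1)) (fun p => p.1.erase p.2 ∉ F)
  rw [filter_filter] at h1 h2
  have h3 : (((F ×ˢ X).filter (fun p => p.2 ∉ p.1)).filter
      (fun p => ¬ (insert p.2 p.1 ∉ F))).card ≤
      (((F ×ˢ X).filter (fun p => p.2 ∈ p.1)).filter (fun p => ¬ (p.1.erase p.2 ∉ F))).card := by
    apply card_le_card_of_injOn (fun p => (insert p.2 p.1, p.2))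
    · rintro ⟨S, x⟩ hp
      simp only [coe_filter, mem_filter, mem_product, Set.mem_ofPred_eq, not_not] at hp ⊢
      obtain ⟨⟨⟨hS, hx⟩, hxS⟩, hi⟩ := hp
      refine ⟨⟨⟨hi, hx⟩, mem_insert_self _ _⟩, ?_⟩
      rwa [erase_insert hxS]
    · rintro ⟨S, x⟩ hp ⟨S', x'⟩ hp' e
      simp only [coe_filter, mem_filter, mem_product, Set.mem_ofPred_eq, not_not] at hp hp'
      simp only [Prod.mk.injEq] at e ⊢
      obtain ⟨e1, rfl⟩ := e
      refine ⟨?_, rfl⟩
      rw [← erase_insert hp.1.2, e1, erase_insert hp'.1.2]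
  unfold blk ess
  omega

theorem half_of_weighted (F : Finset (Finset α)) (X : Finset α) (c : α → ℝ)
    (h0 : ∀ x ∈ X, 0 ≤ c x) (h1 : ∃ x ∈ X, 0 < c x)
    (h : ∑ b ∈ blk F X, c b.2 ≤ ∑ e ∈ ess F X, c e.2) :
    ∃ x ∈ X, F.card ≤ 2 * (F.filter (fun S => x ∈ S)).card := by
  by_contra hc
  push Not at hc
  have key : ∀ x ∈ X, (ess F {x}).card < (blk F {x}).card := by
    intro x hx
    have a := out_add F {x}
    have b := card_filter_add_card_filter_not (s := F ×ˢ ({x} : Finset α)) (fun p => p.2 ∈ p.1)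
    rw [card_product, card_singleton, mul_one] at b
    have d : ((F ×ˢ ({x} : Finset α)).filter (fun p => p.2 ∈ p.1)).card
        = (F.filter (fun S => x ∈ S)).card := by
      simp only [card_filter, sum_product, sum_singleton]
    have := hc x hx
    omega
  have e : ∀ P : Finset α × α → Prop, ∀ _ : DecidablePred P,
      ∑ b ∈ (F ×ˢ X).filter P, c b.2 = ∑ x ∈ X, c x * (((F ×ˢ {x}).filter P).card : ℝ) := by
    intro P _
    rw [sum_filter, sum_product, sum_comm]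
    refine sum_congr rfl (fun x _ => ?_)
    rw [card_filter, sum_product]
    simp only [sum_singleton]
    push_cast
    rw [mul_sum]
    refine sum_congr rfl (fun S _ => ?_)
    split_ifs <;> simp
  unfold blk ess at h key
  rw [e, e] at h
  obtain ⟨x0, hx0, hp⟩ := h1
  refine absurd h (not_le.2 (sum_lt_sum (fun x hx => ?_) ⟨x0, hx0, ?_⟩))
  · exact mul_le_mul_of_nonneg_left (by exact_mod_cast (key x hx).le) (h0 x hx)
  · exact mul_lt_mul_of_pos_left (by exact_mod_cast key x0 hx0) hp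

open Classical in
theorem wflow {F : Finset (Finset α)} (hF : ∀ A ∈ F, ∀ B ∈ F, A ∪ B ∈ F) (X : Finset α)
    (c : α → ℝ) (w : α → Finset α → α → ℝ)
    (hout : ∀ S x, (S, x) ∈ blk F X →
      c x ≤ ∑ u ∈ (X.powerset ×ˢ X).filter (fun u => Move F S x u.1 ∧ u.2 ∈ u.1 ∧ u.2 ≠ x),
        w x u.1 u.2)
    (hin : ∀ y ∈ X, ∀ (M : Finset (α × Finset α)), (∀ p ∈ M, p.1 ∈ X ∧ y ∈ p.2 ∧ y ≠ p.1) →
      (∀ p ∈ M, ∀ q ∈ M, p.1 ∈ q.2) → ∑ p ∈ M, w p.1 p.2 y ≤ c y) :
    ∑ b ∈ blk F X, c b.2 ≤ ∑ e ∈ ess F X, c e.2 := by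
  set T : Finset ((Finset α × α) × (Finset α × α)) :=
    (blk F X ×ˢ (X.powerset ×ˢ X)).filter
      (fun t => Move F t.1.1 t.1.2 t.2.1 ∧ t.2.2 ∈ t.2.1 ∧ t.2.2 ≠ t.1.2) with hT
  have hmem : ∀ t ∈ T, t.1.2 ∈ X ∧ t.2.2 ∈ X ∧ Move F t.1.1 t.1.2 t.2.1 ∧ t.2.2 ∈ t.2.1 ∧
      t.2.2 ≠ t.1.2 := by
    intro t ht
    simp only [hT, blk, mem_filter, mem_product] at ht
    exact ⟨ht.1.1.1.2, ht.1.2.2, ht.2⟩
  have h1 : ∑ b ∈ blk F X, c b.2 ≤ ∑ t ∈ T, w t.1.2 t.2.1 t.2.2 := by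
    rw [hT, sum_filter, sum_product]
    refine sum_le_sum (fun b hb => ?_)
    have := hout b.1 b.2 hb
    rwa [sum_filter] at this
  have h2 : ∑ t ∈ T, w t.1.2 t.2.1 t.2.2 ≤ ∑ e ∈ ess F X, c e.2 := by
    rw [← sum_fiberwise_of_maps_to (t := ess F X) (g := fun t => (t.1.1 ∪ t.2.1, t.2.2))]
    · refine sum_le_sum (fun e he => ?_)
      have hinj : Set.InjOn (fun t : (Finset α × α) × (Finset α × α) => (t.1.2, t.2.1))
          (T.filter (fun t => (t.1.1 ∪ t.2.1, t.2.2) = e) : Finset _) := by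
        rintro ⟨⟨S, x⟩, W, y⟩ ht ⟨⟨S', x'⟩, W', y'⟩ ht' e'
        rw [mem_coe, mem_filter] at ht ht'
        have a := hmem _ ht.1
        have a' := hmem _ ht'.1
        have b := ht.2.trans ht'.2.symm
        simp only [Prod.mk.injEq] at e' b a a' ⊢
        obtain ⟨rfl, rfl⟩ := e'
        refine ⟨⟨?_, rfl⟩, rfl, b.2⟩
        rw [← union_sdiff_cancel_right a.2.2.1.2.2.1, b.1, union_sdiff_cancel_right a'.2.2.1.2.2.1]
      have := hin e.2 (mem_product.1 (mem_filter.1 he).1).2 ((T.filter (fun t => (t.1.1 ∪ t.2.1, t.2.2) = e)).image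
        (fun t => (t.1.2, t.2.1))) ?_ ?_
      · rw [sum_image hinj] at this
        refine le_trans (le_of_eq (sum_congr rfl (fun t ht => ?_))) this
        rw [← (mem_filter.1 ht).2]
      · intro p hp
        obtain ⟨t, ht, rfl⟩ := mem_image.1 hp
        have a := hmem _ (mem_filter.1 ht).1
        rw [← (mem_filter.1 ht).2]
        exact ⟨a.1, a.2.2.2.1, a.2.2.2.2⟩
      · intro p hp q hq
        obtain ⟨t, ht, rfl⟩ := mem_image.1 hp
        obtain ⟨t', ht', rfl⟩ := mem_image.1 hq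
        have a := hmem _ (mem_filter.1 ht).1
        have a' := hmem _ (mem_filter.1 ht').1
        have b := (mem_filter.1 ht).2.trans (mem_filter.1 ht').2.symm
        simp only [Prod.mk.injEq] at b
        exact Move.key hF a.2.2.1 a'.2.2.1 b.1 a.2.2.2.1 (b.2 ▸ a'.2.2.2.1)
    · intro t ht
      have a := hmem _ ht
      simp only [ess, mem_filter, mem_product]
      exact ⟨⟨a.2.2.1.2.2.2.1, a.2.1⟩, mem_union_right _ a.2.2.2.1,
        a.2.2.1.erase_notMem a.2.2.2.1 a.2.2.2.2⟩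
  exact h1.trans h2

end Pool.Agent.FS.SpectralFC
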