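import Mathlib

/-! A symmetric matrix with nonnegative entries has a nonnegative top eigenvector. -/

namespace Pool.Agent.FS.SpectralFC

open Finset

theorem eig_max {ι : Type*} [Fintype ι] [Nonempty ι] (M : ι → ι → ℝ) (h0 : ∀ i j, 0 ≤ M i j) :
    ∃ c : ι → ℝ, (∀ i, 0 ≤ c i) ∧ ∑ i, c i ^ 2 = 1 ∧ ∀ v : ι → ℝ, ∑ i, v i ^ 2 = 1 →
      ∑ i, v i * ∑ j, M i j * v j ≤ ∑ i, c i * ∑ j, M i j * c j := by
  classical
  have hK : IsCompact {v : ι → ℝ | ∑ i, v i ^ 2 = 1} := by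
    refine (isCompact_univ_pi (fun _ : ι => isCompact_Icc (a := (-1 : ℝ)) (b := 1))).of_isClosed_subset
      (isClosed_eq (by fun_prop) continuous_const) ?_
    intro v hv i _
    have h1 : v i ^ 2 ≤ ∑ i, v i ^ 2 :=
      single_le_sum (f := fun i => v i ^ 2) (fun i _ => sq_nonneg _) (mem_univ i)
    have h2 : ∑ i, v i ^ 2 = 1 := hv
    constructor <;> nlinarith
  have hne : {v : ι → ℝ | ∑ i, v i ^ 2 = 1}.Nonempty := by
    obtain ⟨i⟩ := ‹Nonempty ι›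
    refine ⟨fun j => if j = i then 1 else 0, ?_⟩
    simp
  obtain ⟨v0, hv0, hmax⟩ := hK.exists_isMaxOn hne
    (f := fun v : ι → ℝ => ∑ i, v i * ∑ j, M i j * v j) (by fun_prop)
  refine ⟨fun i => |v0 i|, fun i => abs_nonneg _, ?_, fun v hv => ?_⟩
  · have h2 : ∑ i, v0 i ^ 2 = 1 := hv0
    simpa only [sq_abs] using h2
  · refine (hmax hv).trans ?_
    simp only [mul_sum]
    refine sum_le_sum fun i _ => sum_le_sum fun j _ => ?_
    have h1 : v0 i * v0 j ≤ |v0 i| * |v0 j| := by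
      rw [← abs_mul]; exact le_abs_self _
    have h2 := mul_le_mul_of_nonneg_left h1 (h0 i j)
    nlinarith

theorem eig {ι : Type*} [Fintype ι] [Nonempty ι] (M : ι → ι → ℝ) (h0 : ∀ i j, 0 ≤ M i j)
    (hs : ∀ i j, M i j = M j i) :
    ∃ (ρ : ℝ) (c : ι → ℝ), (∀ i, 0 ≤ c i) ∧ ∑ i, c i ^ 2 = 1 ∧ (∀ i, ∑ j, M i j * c j = ρ * c i) ∧
      ∀ v : ι → ℝ, ∑ i, v i * ∑ j, M i j * v j ≤ ρ * ∑ i, v i ^ 2 := by
  obtain ⟨c, hc0, hc1, hmax⟩ := eig_max M h0
  obtain ⟨ρ, hρ⟩ : ∃ ρ, ρ = ∑ i, c i * ∑ j, M i j * c j := ⟨_, rfl⟩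
  rw [← hρ] at hmax
  have hall : ∀ v : ι → ℝ, ∑ i, v i * ∑ j, M i j * v j ≤ ρ * ∑ i, v i ^ 2 := by
    intro v
    have hN : 0 ≤ ∑ i, v i ^ 2 := sum_nonneg fun i _ => sq_nonneg _
    rcases hN.eq_or_lt with h | h
    · have hz : ∀ i, v i = 0 := fun i =>
        pow_eq_zero_iff (two_ne_zero) |>.1
          ((sum_eq_zero_iff_of_nonneg (fun i _ => sq_nonneg (v i))).1 h.symm i (mem_univ i))
      simp [hz]
    · obtain ⟨s, hs0, hs2⟩ : ∃ s : ℝ, 0 < s ∧ s ^ 2 * ∑ i, v i ^ 2 = 1 := by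
        refine ⟨(Real.sqrt (∑ i, v i ^ 2))⁻¹, inv_pos.2 (Real.sqrt_pos.2 h), ?_⟩
        rw [inv_pow, Real.sq_sqrt hN, inv_mul_cancel₀ h.ne']
      have h1 := hmax (fun i => s * v i) (by
        rw [← hs2, mul_sum]
        exact sum_congr rfl fun i _ => by ring)
      have h2 : ∑ i, s * v i * ∑ j, M i j * (s * v j) = s ^ 2 * ∑ i, v i * ∑ j, M i j * v j := by
        simp only [mul_sum]
        exact sum_congr rfl fun i _ => sum_congr rfl fun j _ => by ring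
      rw [h2] at h1
      have h3 := mul_le_mul_of_nonneg_right h1 hN
      have h4 : s ^ 2 * (∑ i, v i * ∑ j, M i j * v j) * ∑ i, v i ^ 2 =
          ∑ i, v i * ∑ j, M i j * v j := by
        rw [mul_right_comm, hs2, one_mul]
      rwa [h4] at h3
  refine ⟨ρ, c, hc0, hc1, ?_, hall⟩
  obtain ⟨d, hd⟩ : ∃ d : ι → ℝ, ∀ i, d i = ρ * c i - ∑ j, M i j * c j := ⟨_, fun _ => rfl⟩
  have sym : ∑ i, c i * ∑ j, M i j * d j = ∑ i, d i * ∑ j, M i j * c j := by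
    simp only [mul_sum]
    rw [sum_comm]
    exact sum_congr rfl fun i _ => sum_congr rfl fun j _ => by rw [hs j i]; ring
  have e0 : ∑ i, d i ^ 2 = ρ * ∑ i, c i * d i - ∑ i, d i * ∑ j, M i j * c j := by
    rw [mul_sum, ← sum_sub_distrib]
    refine sum_congr rfl fun i _ => ?_
    have := hd i
    linear_combination d i * this
  have quad : ∀ t : ℝ, 0 ≤ (ρ * ∑ i, d i ^ 2 - ∑ i, d i * ∑ j, M i j * d j) * (t * t) +
      (2 * ∑ i, d i ^ 2) * t + 0 := by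
    intro t
    have h1 := hall (fun i => c i + t * d i)
    have e1 : ∀ i, ∑ j, M i j * (c j + t * d j) = ∑ j, M i j * c j + t * ∑ j, M i j * d j := by
      intro i
      rw [mul_sum, ← sum_add_distrib]
      exact sum_congr rfl fun j _ => by ring
    have e2 : ∑ i, (c i + t * d i) * ∑ j, M i j * (c j + t * d j) =
        ∑ i, c i * ∑ j, M i j * c j + t * ∑ i, c i * ∑ j, M i j * d j +
          t * ∑ i, d i * ∑ j, M i j * c j + t ^ 2 * ∑ i, d i * ∑ j, M i j * d j := by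
      rw [mul_sum univ _ t, mul_sum univ _ t, mul_sum univ _ (t ^ 2), ← sum_add_distrib,
        ← sum_add_distrib, ← sum_add_distrib]
      exact sum_congr rfl fun i _ => by rw [e1]; ring
    have e3 : ∑ i, (c i + t * d i) ^ 2 =
        ∑ i, c i ^ 2 + 2 * t * ∑ i, c i * d i + t ^ 2 * ∑ i, d i ^ 2 := by
      rw [mul_sum, mul_sum, ← sum_add_distrib, ← sum_add_distrib]
      exact sum_congr rfl fun i _ => by ring
    rw [e2, e3, sym, ← hρ, hc1] at h1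
    have e4 : 2 * t * ∑ i, d i ^ 2 =
        2 * t * (ρ * ∑ i, c i * d i - ∑ i, d i * ∑ j, M i j * c j) := by rw [← e0]
    nlinarith
  have hdis := discrim_le_zero quad
  have hz : ∑ i, d i ^ 2 = 0 := by
    unfold discrim at hdis
    have : (∑ i, d i ^ 2) ^ 2 ≤ 0 := by nlinarith
    exact pow_eq_zero_iff (two_ne_zero) |>.1 (le_antisymm this (sq_nonneg _))
  intro i
  have h1 : d i = 0 := pow_eq_zero_iff (two_ne_zero) |>.1
    ((sum_eq_zero_iff_of_nonneg (fun i _ => sq_nonneg (d i))).1 hz i (mem_univ i))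
  have := hd i
  linarith

theorem eig_pos {ι : Type*} [Fintype ι] {c : ι → ℝ} (hc0 : ∀ i, 0 ≤ c i) (hc1 : ∑ i, c i ^ 2 = 1) :
    ∃ i, 0 < c i := by
  by_contra h
  have hz : ∀ i, c i = 0 := fun i => le_antisymm (not_lt.1 fun hi => h ⟨i, hi⟩) (hc0 i)
  simp [hz] at hc1

/-- either a nonnegative eigenvector with eigenvalue at least one, or a strict supersolution -/
theorem dich {ι : Type*} [Fintype ι] [Nonempty ι] (M : ι → ι → ℝ) (h0 : ∀ i j, 0 ≤ M i j)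
    (hs : ∀ i j, M i j = M j i) :
    (∃ (ρ : ℝ) (c : ι → ℝ), 1 ≤ ρ ∧ (∀ i, 0 ≤ c i) ∧ (∃ i, 0 < c i) ∧
      ∀ i, ∑ j, M i j * c j = ρ * c i) ∨
    ∃ l : ι → ℝ, (∀ i, 0 ≤ l i) ∧ ∀ i, ∑ j, M i j * l j < l i := by
  obtain ⟨ρ, c, hc0, hc1, he, hb⟩ := eig M h0 hs
  rcases le_or_gt 1 ρ with h | h
  · exact Or.inl ⟨ρ, c, h, hc0, eig_pos hc0 hc1, he⟩
  right
  have hn : (0 : ℝ) < Fintype.card ι := Nat.cast_pos.2 Fintype.card_pos
  obtain ⟨ε, hε, hε2⟩ : ∃ ε : ℝ, 0 < ε ∧ ε * Fintype.card ι = 1 - ρ :=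
    ⟨(1 - ρ) / Fintype.card ι, div_pos (sub_pos.2 h) hn, div_mul_cancel₀ _ hn.ne'⟩
  obtain ⟨r, l, hl0, hl1, he', -⟩ := eig (fun i j => M i j + ε)
    (fun i j => add_nonneg (h0 i j) hε.le) (fun i j => by rw [hs i j])
  have e1 : ∀ i, ∑ j, M i j * l j + ε * ∑ j, l j = r * l i := by
    intro i
    rw [← he' i, mul_sum, ← sum_add_distrib]
    exact sum_congr rfl fun j _ => by ring
  have e2 : ∑ i, l i * ∑ j, M i j * l j + ε * (∑ j, l j) ^ 2 = r := by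
    have h1 : ∑ i, l i * (∑ j, M i j * l j + ε * ∑ j, l j) = r * ∑ i, l i ^ 2 := by
      rw [mul_sum univ _ r]
      exact sum_congr rfl fun i _ => by rw [e1]; ring
    rw [hl1, mul_one] at h1
    rw [← h1]
    simp only [mul_add]
    rw [sum_add_distrib, ← sum_mul]
    ring
  have cs : (∑ j, l j) ^ 2 ≤ Fintype.card ι := by
    have h1 := sq_sum_le_card_mul_sum_sq (s := (univ : Finset ι)) (f := l)
    rwa [hl1, mul_one, card_univ] at h1
  have hr : r ≤ 1 := by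
    have h1 := hb l
    rw [hl1, mul_one] at h1
    have h2 := mul_le_mul_of_nonneg_left cs hε.le
    linarith
  obtain ⟨i0, hi0⟩ := eig_pos hl0 hl1
  have hsum : 0 < ∑ j, l j :=
    lt_of_lt_of_le hi0 (single_le_sum (f := l) (fun i _ => hl0 i) (mem_univ i0))
  refine ⟨l, hl0, fun i => ?_⟩
  have h1 := e1 i
  have h2 := mul_pos hε hsum
  have h3 := mul_le_mul_of_nonneg_right hr (hl0 i)
  linarith

end Pool.Agent.FS.SpectralFC
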