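import Pool.Agent.FS.LinearSpaces.Main

/-! A strict supersolution of the collinearity operator gives a family without abundant point. -/

namespace Pool.Agent.FS.SpectralFC

open Finset Pool.Agent.FS.LinearSpaces

variable {α : Type*} [DecidableEq α] {X : Finset α} {L : Finset (Finset α)}

/-- the weighted collinearity operator -/
noncomputable def op (L : Finset (Finset α)) (c : α → ℝ) (x : α) : ℝ :=
  ∑ T ∈ L.filter (fun T => x ∈ T), (∑ y ∈ T.erase x, c y) / (2 ^ (T.card - 1) - 1)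

theorem weighted2 (hL : ∀ T ∈ L, T ⊆ X ∧ 2 ≤ T.card)
    (hlin : ∀ T ∈ L, ∀ T' ∈ L, T ≠ T' → (T ∩ T').card ≤ 1)
    (n Q : α → ℕ) (hn : ∀ x ∈ X, n x * (bad X L x).card = Q x) {z : α} (hz : z ∈ X) :
    ((∑ x ∈ X, (n x : ℤ) * ∑ S ∈ good X L x, sg z S : ℤ) : ℝ) ≤
      op L (fun x => (Q x : ℝ)) z - Q z := by
  rw [← add_sum_erase X _ hz, sum_good_self hz, Int.cast_add, Int.cast_sum]
  have h1 : (((n z : ℤ) * - ((bad X L z).card : ℤ) : ℤ) : ℝ) = - (Q z : ℝ) := by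
    rw [← hn z hz]; push_cast; ring
  have h2 : ∑ x ∈ X.erase z, (((n x : ℤ) * ∑ S ∈ good X L x, sg z S : ℤ) : ℝ)
      ≤ ∑ x ∈ X.erase z, ∑ T ∈ L.filter (fun T => z ∈ T),
        (if x ∈ T then (Q x : ℝ) / (2 ^ (T.card - 1) - 1) else 0) := by
    refine sum_le_sum (fun x hx => ?_)
    obtain ⟨hxz, hxX⟩ := mem_erase.1 hx
    have h3 := sum_good_le (L := L) (x := x) hz
    have h4 : (n x : ℤ) * ∑ S ∈ good X L x, sg z S
        ≤ (n x : ℤ) * ((edge X L x z).card : ℤ) := by gcongr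
    have h5 : (((n x : ℤ) * ∑ S ∈ good X L x, sg z S : ℤ) : ℝ)
        ≤ (n x : ℝ) * ((edge X L x z).card : ℝ) := by exact_mod_cast h4
    refine h5.trans ?_
    have hnn : ∀ T ∈ L.filter (fun T => z ∈ T),
        (0 : ℝ) ≤ (if x ∈ T then (Q x : ℝ) / (2 ^ (T.card - 1) - 1) else 0) := by
      intro T hT
      have := den_pos (hL T (mem_filter.1 hT).1).2
      split_ifs
      · positivity
      · exact le_rfl
    rcases (edge X L x z).eq_empty_or_nonempty with h0 | ⟨S0, hS0⟩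
    · rw [h0, card_empty, Nat.cast_zero, mul_zero]
      exact sum_nonneg hnn
    obtain ⟨T, hT, hxT, hzT, -⟩ := edge_line hz hS0
    refine le_trans ?_ (single_le_sum hnn (mem_filter.2 ⟨hT, hzT⟩))
    rw [if_pos hxT, le_div_iff₀ (den_pos (hL T hT).2), ← hn x hxX]
    have h6 := edge_card hL hlin hz (Ne.symm hxz) hT hxT hzT
    have h7 : ((edge X L x z).card : ℝ) * (2 ^ (T.card - 1) - 1) ≤ ((bad X L x).card : ℝ) := by
      have h8 : (((edge X L x z).card * (2 ^ (T.card - 1) - 1) : ℕ) : ℝ)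
          ≤ ((bad X L x).card : ℝ) := by exact_mod_cast h6
      rwa [Nat.cast_mul, Nat.cast_sub Nat.one_le_two_pow, Nat.cast_pow, Nat.cast_ofNat,
        Nat.cast_one] at h8
    rw [Nat.cast_mul, mul_assoc]
    gcongr
  have h7 : ∑ x ∈ X.erase z, ∑ T ∈ L.filter (fun T => z ∈ T),
        (if x ∈ T then (Q x : ℝ) / (2 ^ (T.card - 1) - 1) else 0)
      = op L (fun x => (Q x : ℝ)) z := by
    rw [sum_comm, op]
    refine sum_congr rfl (fun T hT => ?_)
    obtain ⟨hTL, hzT⟩ := mem_filter.1 hT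
    have e : (X.erase z).filter (fun x => x ∈ T) = T.erase z := by
      ext a
      simp only [mem_filter, mem_erase]
      exact ⟨fun h => ⟨h.1.1, h.2⟩, fun h => ⟨⟨h.1, (hL T hTL).1 h.2⟩, h.2⟩⟩
    rw [← sum_filter, e, sum_div]
  rw [h1]
  linarith

theorem not_fc2 [Infinite α] (hX : X.Nonempty) (hL : ∀ T ∈ L, T ⊆ X ∧ 2 ≤ T.card)
    (hlin : ∀ T ∈ L, ∀ T' ∈ L, T ≠ T' → (T ∩ T').card ≤ 1) {l : α → ℝ} (l0 : ∀ x, 0 ≤ l x)
    (hlt : ∀ z ∈ X, op L l z < l z) :
    ∃ F : Finset (Finset α), (∀ A ∈ F, ∀ B ∈ F, A ∪ B ∈ F) ∧ L ⊆ F ∧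
      ∀ z ∈ X, 2 * (F.filter (fun S => z ∈ S)).card < F.card := by
  classical
  have hev : ∀ᶠ N : ℝ in Filter.atTop, ∀ z ∈ X,
      (2 ^ X.card + 3 * op L (fun _ => 1) z) / (l z - op L l z) < N :=
    (Filter.eventually_all_finset X).2 fun z _ => Filter.eventually_gt_atTop _
  obtain ⟨N, hN, hN0⟩ := (hev.and (Filter.eventually_ge_atTop 0)).exists
  set P : ℕ := ∏ x' ∈ X, (bad X L x').card with hPd
  let r : α → ℕ := fun x => ⌈N * l x⌉₊ + 2
  let n : α → ℕ := fun x => r x * ∏ x' ∈ X.erase x, (bad X L x').card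
  have hn : ∀ x ∈ X, n x * (bad X L x).card = r x * P := by
    intro x hx
    rw [hPd, ← prod_erase_mul X _ hx, mul_assoc]
  have hP : 1 ≤ P := prod_pos (fun x hx => bad_pos hL hx)
  have hn2 : ∀ x, 2 ≤ n x := by
    intro x
    have : 1 ≤ ∏ x' ∈ X.erase x, (bad X L x').card :=
      prod_pos (fun x' hx => bad_pos hL (mem_of_mem_erase hx))
    have h2 : 2 ≤ r x := Nat.le_add_left _ _
    show 2 ≤ r x * _
    nlinarith
  have r1 : ∀ x, N * l x ≤ r x ∧ (r x : ℝ) ≤ N * l x + 3 := by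
    intro x
    have a := Nat.le_ceil (N * l x)
    have b := Nat.ceil_lt_add_one (mul_nonneg hN0 (l0 x))
    simp only [r]
    push_cast
    constructor <;> linarith
  clear_value n
  clear_value r
  clear_value P
  let ι := Σ x : X, Fin (n x)
  obtain ⟨x0, hx0⟩ := hX
  have : Nontrivial ι := ⟨⟨⟨⟨x0, hx0⟩, ⟨0, lt_of_lt_of_le (by norm_num) (hn2 x0)⟩⟩,
    ⟨⟨x0, hx0⟩, ⟨1, lt_of_lt_of_le (by norm_num) (hn2 x0)⟩⟩, fun h => by
      have := congrArg (fun i : ι => (i.2 : ℕ)) h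
      simp at this⟩⟩
  have hinf : ((X : Set α)ᶜ).Infinite := X.finite_toSet.infinite_compl
  let e := hinf.natEmbedding
  let y : ι → α := fun i => (e (Fintype.equivFin ι i) : α)
  have hy : Function.Injective y := fun i j h =>
    (Fintype.equivFin ι).injective (Fin.ext (e.injective (Subtype.ext h)))
  have hyX : ∀ i, y i ∉ X := fun i => (e (Fintype.equivFin ι i)).2
  obtain ⟨F, hF, hLF, hsum⟩ := glue X L (fun T hT => (hL T hT).1) y hy hyX
    (fun i => good X L i.1) (fun i S hS => (mem_good.1 hS).1)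
    (fun i S hS S' hS' => good_union hS hS')
    (fun i S hS T hT => good_union (line_good hT (hL T hT).1) hS)
  refine ⟨F, hF, hLF, fun z hz => ?_⟩
  have h1 := hsum z hz
  have h2 : ∑ i : ι, ∑ S ∈ good X L i.1, sg z S
      = ∑ x ∈ X, (n x : ℤ) * ∑ S ∈ good X L x, sg z S := by
    rw [Fintype.sum_sigma, ← sum_coe_sort X]
    refine sum_congr rfl (fun x _ => ?_)
    simp
  have h3 := weighted2 hL hlin n (fun x => r x * P) hn hz
  rw [h2, sum_sg] at h1
  set D : ℤ := ∑ x ∈ X, (n x : ℤ) * ∑ S ∈ good X L x, sg z S with hD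
  have h4 : op L (fun x => ((r x * P : ℕ) : ℝ)) z
      ≤ P * (N * op L l z + 3 * op L (fun _ => 1) z) := by
    simp only [op, mul_sum, ← sum_add_distrib, sum_div]
    refine sum_le_sum (fun T hT => sum_le_sum (fun y _ => ?_))
    have d := den_pos (hL T (mem_filter.1 hT).1).2
    have e : (P : ℝ) * (N * (l y / (2 ^ (T.card - 1) - 1)) + 3 * (1 / (2 ^ (T.card - 1) - 1)))
        = ((N * l y + 3) * P) / (2 ^ (T.card - 1) - 1) := by ring
    rw [e]
    push_cast
    gcongr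
    exact (r1 y).2
  have h5 := hN z hz
  rw [div_lt_iff₀ (sub_pos.2 (hlt z hz))] at h5
  have h6 : (1 : ℝ) ≤ P := by exact_mod_cast hP
  have h7 : (P : ℝ) * (N * l z) ≤ ((r z * P : ℕ) : ℝ) := by
    push_cast
    rw [mul_comm]
    gcongr
    exact (r1 z).1
  have h70 : (0 : ℝ) < 2 ^ X.card := by positivity
  have h8 : (D : ℝ) < - 2 ^ X.card := by nlinarith
  have h8' : D < - 2 ^ X.card := by exact_mod_cast h8
  have h9 : 2 * ((F.filter (fun S => z ∈ S)).card : ℤ) < F.card := by linarith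
  exact_mod_cast h9

end Pool.Agent.FS.SpectralFC
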