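import Pool.Agent.FS.SpectralFC.WFlow
import Pool.Agent.FS.LinearSpaces.Bad

/-! Linear families of triples with a nonnegative eigenvector of eigenvalue at least three. -/

namespace Pool.Agent.FS.SpectralFC

open Finset Pool.Agent.Lib.MP_dbcba7_co.Mo Pool.Agent.FS.LinearSpaces

variable {α : Type*} [DecidableEq α]

theorem share {T : Finset α} (h3 : T.card = 3) {c : α → ℝ} {ρ : ℝ} (hρ : 1 ≤ ρ)
    (h0 : ∀ u ∈ T, 0 ≤ c u) (hl : ∀ u ∈ T, (∑ y ∈ T.erase u, c y) / 3 ≤ ρ * c u) {x : α}
    (hx : x ∈ T) :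
    ∃ m : ℝ, 0 ≤ m ∧ (∀ y ∈ T.erase x, m ≤ c y) ∧
      m ≤ ∑ y ∈ T.erase x, min (c y / 2) (c y - m) ∧
      ((∑ y ∈ T.erase x, c y) / 3 ≤ ρ * m ∨ c x ≤ m) := by
  obtain ⟨y, z, hyz, e⟩ := card_eq_two.1 (show (T.erase x).card = 2 by
    rw [card_erase_of_mem hx, h3])
  have hy : y ∈ T := mem_of_mem_erase (e ▸ mem_insert_self y {z})
  have hz : z ∈ T := mem_of_mem_erase (e ▸ mem_insert_of_mem (mem_singleton_self z))
  have s1 := add_sum_erase T c hx
  have s2 := add_sum_erase T c hy
  have s3 := add_sum_erase T c hz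
  have a := hl y hy
  have b := hl z hz
  have p := h0 y hy
  have q := h0 z hz
  rw [e, sum_pair hyz] at s1
  rw [e]
  simp only [sum_pair hyz, mem_insert, mem_singleton, forall_eq_or_imp, forall_eq]
  refine ⟨min (min (c y) (c z)) ((c y + c z) / 3), by positivity,
    ⟨(min_le_left _ _).trans (min_le_left _ _), (min_le_left _ _).trans (min_le_right _ _)⟩, ?_, ?_⟩
  · simp only [min_def]
    split_ifs <;> linarith
  · simp only [min_def]
    split_ifs
    · by_contra h
      push Not at h
      linarith [h.1, h.2]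
    · left; nlinarith
    · by_contra h
      push Not at h
      linarith [h.1, h.2]
    · left; nlinarith

theorem tri {X : Finset α} {L : Finset (Finset α)} (hL : ∀ T ∈ L, T ⊆ X ∧ T.card = 3)
    (hlin : ∀ T ∈ L, ∀ T' ∈ L, T ≠ T' → (T ∩ T').card ≤ 1) {c : α → ℝ} {ρ : ℝ} (hρ : 1 ≤ ρ)
    (h0 : ∀ x ∈ X, 0 ≤ c x) (h1 : ∃ x ∈ X, 0 < c x)
    (he : ∀ x ∈ X, ∑ T ∈ L.filter (fun T => x ∈ T), (∑ y ∈ T.erase x, c y) / 3 = ρ * c x)
    (F : Finset (Finset α)) (hF : ∀ A ∈ F, ∀ B ∈ F, A ∪ B ∈ F) (hLF : L ⊆ F) :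
    ∃ x ∈ X, F.card ≤ 2 * (F.filter (fun S => x ∈ S)).card := by
  classical
  have hl : ∀ T ∈ L, ∀ u ∈ T, (∑ y ∈ T.erase u, c y) / 3 ≤ ρ * c u := by
    intro T hT u hu
    rw [← he u ((hL T hT).1 hu)]
    refine single_le_sum (f := fun T => (∑ y ∈ T.erase u, c y) / 3) (fun T' hT' => ?_)
      (mem_filter.2 (And.intro hT hu) : T ∈ L.filter (fun T => u ∈ T))
    exact div_nonneg (sum_nonneg fun y hy =>
      h0 y ((hL T' (mem_filter.1 hT').1).1 (mem_of_mem_erase hy))) (by norm_num)
  have hm := fun T (hT : T ∈ L) x (hx : x ∈ T) =>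
    share (hL T hT).2 hρ (fun u hu => h0 u ((hL T hT).1 hu)) (hl T hT) hx
  choose! μ m0 m1 m2 m3 using hm
  let g : Finset α → α → Finset α → α → ℝ := fun T x W y =>
    if W = T then min (c y / 2) (c y - μ T x) else μ T x
  have g0 : ∀ T ∈ L, ∀ x ∈ T, ∀ W y, y ∈ T → y ≠ x → 0 ≤ g T x W y := by
    intro T hT x hx W y hy hyx
    simp only [g]
    split_ifs
    · have := h0 y ((hL T hT).1 hy)
      have := m1 T hT x hx y (mem_erase.2 ⟨hyx, hy⟩)
      exact le_min (by linarith) (by linarith)
    · exact m0 T hT x hx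
  refine half_of_weighted F X c h0 h1 (wflow hF X c
    (fun x W y => ∑ T ∈ L, if x ∈ T ∧ W ⊆ T then g T x W y else 0) ?_ ?_)
  · intro S x hb
    simp only [blk, mem_filter, mem_product] at hb
    obtain ⟨⟨hS, hx⟩, hxS, hi⟩ := hb
    rw [sum_comm]
    have k1 : c x ≤ ∑ T ∈ L.filter (fun T => x ∈ T), μ T x := by
      by_cases h : ∃ T ∈ L.filter (fun T => x ∈ T), c x ≤ μ T x
      · obtain ⟨T, hT, h⟩ := h
        exact h.trans (single_le_sum (f := fun T => μ T x)
          (fun T' hT' => m0 T' (mem_filter.1 hT').1 x (mem_filter.1 hT').2) hT)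
      · push Not at h
        refine le_of_mul_le_mul_left ?_ (lt_of_lt_of_le one_pos hρ)
        rw [← he x hx, mul_sum]
        exact sum_le_sum fun T hT => (m3 T (mem_filter.1 hT).1 x (mem_filter.1 hT).2).resolve_right
          (not_le.2 (h T hT))
    refine k1.trans ?_
    rw [sum_filter]
    refine sum_le_sum (fun T hT => ?_)
    split_ifs with a
    swap
    · simp [a]
    obtain ⟨W, hW, hm⟩ := exists_move hF hS (hLF hT) a hxS
    have hne : (W.erase x).Nonempty := by
      by_contra h
      rw [not_nonempty_iff_eq_empty, erase_eq_empty_iff] at h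
      have h2 := hm.2.2.2.1
      rcases h with h | h
      · exact absurd (h ▸ hm.2.1) (notMem_empty x)
      · rw [h, union_comm, ← insert_eq] at h2
        exact hi h2
    calc μ T x ≤ ∑ y ∈ W.erase x, g T x W y := by
          by_cases e : W = T
          · simp only [g, if_pos e]
            rw [e]
            exact m2 T hT x a
          · obtain ⟨y, hy⟩ := hne
            simp only [g, if_neg e]
            exact single_le_sum (f := fun _ => μ T x) (fun _ _ => m0 T hT x a) hy
      _ = ∑ u ∈ ({W} : Finset (Finset α)) ×ˢ W.erase x,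
          (if x ∈ T ∧ u.1 ⊆ T then g T x u.1 u.2 else 0) := by
          rw [sum_product, sum_singleton]
          simp only [if_pos (And.intro a hW)]
      _ ≤ _ := by
          refine sum_le_sum_of_subset_of_nonneg (fun u hu => ?_) (fun u hu _ => ?_)
          · simp only [mem_product, mem_singleton, mem_erase] at hu
            simp only [mem_filter, mem_product, mem_powerset, hu.1]
            exact ⟨⟨hW.trans (hL T hT).1, (hL T hT).1 (hW hu.2.2)⟩, hm, hu.2.2, hu.2.1⟩
          · split_ifs with h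
            · have k := (mem_filter.1 hu).2
              exact g0 T hT x a _ _ (h.2 k.2.1) k.2.2
            · exact le_rfl
  · intro y hy M h2 h3
    rcases M.eq_empty_or_nonempty with rfl | ⟨p0, hp0⟩
    · simpa using h0 y hy
    rw [sum_comm]
    have k1 : ∀ T ∈ L, ∑ p ∈ M, (if p.1 ∈ T ∧ p.2 ⊆ T then g T p.1 p.2 y else 0) ≤
        if p0.1 ∈ T ∧ y ∈ T then c y else 0 := by
      intro T hT
      rw [← sum_filter]
      set M' := M.filter (fun p => p.1 ∈ T ∧ p.2 ⊆ T) with hM'
      split_ifs with hc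
      swap
      · rw [sum_eq_zero]
        intro p hp
        obtain ⟨hp1, hp2⟩ := mem_filter.1 hp
        exact absurd ⟨hp2.2 (h3 p0 hp0 p hp1), hp2.2 (h2 p hp1).2.1⟩ hc
      have two : ∀ p ∈ M', p.2 ≠ T → p.2 = {p.1, y} := by
        intro p hp hne
        obtain ⟨hp1, hp2⟩ := mem_filter.1 hp
        have a : p.2.card < T.card := card_lt_card (Finset.ssubset_iff_subset_ne.2 ⟨hp2.2, hne⟩)
        rw [(hL T hT).2] at a
        refine (eq_of_subset_of_card_le (fun u hu => ?_) ?_).symm
        · rcases mem_insert.1 hu with rfl | hu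
          · exact h3 p hp1 p hp1
          · rw [mem_singleton.1 hu]; exact (h2 p hp1).2.1
        · rw [card_pair (h2 p hp1).2.2.symm]; omega
      by_cases hall : ∀ p ∈ M', p.2 = T
      · have a : M'.card ≤ (T.erase y).card := by
          refine card_le_card_of_injOn Prod.fst (fun p hp => ?_) (fun p hp q hq e => ?_)
          · obtain ⟨hp1, hp2⟩ := mem_filter.1 hp
            exact mem_coe.2 (mem_erase.2 ⟨(h2 p hp1).2.2.symm, hp2.1⟩)
          · exact Prod.ext e ((hall p hp).trans (hall q hq).symm)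
        rw [card_erase_of_mem hc.2, (hL T hT).2] at a
        have b := sum_le_card_nsmul M' (fun p => g T p.1 p.2 y) (c y / 2) (fun p hp => by
          simp only [g, if_pos (hall p hp)]
          exact min_le_left _ _)
        have d : (M'.card : ℝ) ≤ 2 := by exact_mod_cast a
        have := h0 y hy
        rw [nsmul_eq_mul] at b
        nlinarith
      · push Not at hall
        obtain ⟨p, hp, hne⟩ := hall
        obtain ⟨hp1, hp2⟩ := mem_filter.1 hp
        have a : M' ⊆ {p, (p.1, T)} := by
          intro q hq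
          obtain ⟨hq1, hq2⟩ := mem_filter.1 hq
          have b : q.1 = p.1 := by
            have := h3 q hq1 p hp1
            rw [two p hp hne, mem_insert, mem_singleton] at this
            exact this.resolve_right (h2 q hq1).2.2.symm
          rw [mem_insert, mem_singleton]
          by_cases e : q.2 = T
          · exact Or.inr (Prod.ext b e)
          · exact Or.inl (Prod.ext b (by rw [two q hq e, two p hp hne, b]))
        refine (sum_le_sum_of_subset_of_nonneg a (fun q hq _ => ?_)).trans ?_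
        · rcases mem_insert.1 hq with rfl | hq
          · exact g0 T hT _ hp2.1 _ _ hc.2 (h2 _ hp1).2.2
          · rw [mem_singleton.1 hq]
            exact g0 T hT _ hp2.1 _ _ hc.2 (h2 _ hp1).2.2
        · rw [sum_pair (fun e => hne (congrArg Prod.snd e))]
          simp only [g, if_neg hne, if_true]
          linarith [min_le_right (c y / 2) (c y - μ T p.1)]
    refine (sum_le_sum k1).trans ?_
    rw [← sum_filter, sum_const, nsmul_eq_mul]
    have k2 : (L.filter (fun T => p0.1 ∈ T ∧ y ∈ T)).card ≤ 1 := by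
      refine card_le_one.2 (fun T hT T' hT' => ?_)
      simp only [mem_filter] at hT hT'
      exact line_eq hlin hT.1 hT'.1 (h2 p0 hp0).2.2 hT.2.1 hT.2.2 hT'.2.1 hT'.2.2
    exact mul_le_of_le_one_left (h0 y hy) (by exact_mod_cast k2)

end Pool.Agent.FS.SpectralFC
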