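import Pool.Agent.FS.SpectralFC.Eig
import Pool.Agent.FS.SpectralFC.Tri
import Pool.Agent.FS.SpectralFC.NotFC

/-! The spectral criterion for linear families. -/

namespace Pool.Agent.FS.SpectralFC

open Finset Pool.Agent.FS.LinearSpaces

variable {α : Type*} [DecidableEq α] {X : Finset α} {L : Finset (Finset α)}

/-- the weighted collinearity matrix -/
noncomputable def mat (L : Finset (Finset α)) (x y : α) : ℝ :=
  ∑ T ∈ L, if x ∈ T ∧ y ∈ T ∧ y ≠ x then 1 / ((2 : ℝ) ^ (T.card - 1) - 1) else 0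

theorem mat_symm (x y : α) : mat L x y = mat L y x := by
  unfold mat
  refine sum_congr rfl (fun T _ => if_congr ?_ rfl rfl)
  exact ⟨fun h => ⟨h.2.1, h.1, h.2.2.symm⟩, fun h => ⟨h.2.1, h.1, h.2.2.symm⟩⟩

theorem mat_nonneg (hL : ∀ T ∈ L, T ⊆ X ∧ 2 ≤ T.card) (x y : α) : 0 ≤ mat L x y := by
  refine sum_nonneg (fun T hT => ?_)
  have := den_pos (hL T hT).2
  split_ifs
  · positivity
  · exact le_rfl

theorem op_eq (hL : ∀ T ∈ L, T ⊆ X ∧ 2 ≤ T.card) (c : α → ℝ) (x : α) :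
    op L c x = ∑ y ∈ X, mat L x y * c y := by
  simp only [op, mat, sum_mul]
  rw [sum_comm, sum_filter]
  refine sum_congr rfl (fun T hT => ?_)
  split_ifs with h
  · have e : X.filter (fun y => y ∈ T ∧ y ≠ x) = T.erase x := by
      ext a
      simp only [mem_filter, mem_erase]
      exact ⟨fun h => ⟨h.2.2, h.2.1⟩, fun h => ⟨(hL T hT).1 h.2, h.2, h.1⟩⟩
    rw [← e, sum_filter, sum_div]
    refine sum_congr rfl (fun y _ => ?_)
    simp only [h, true_and]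
    split_ifs
    · ring
    · ring
  · simp [h]

theorem dich2 (hX : X.Nonempty) (hL : ∀ T ∈ L, T ⊆ X ∧ 2 ≤ T.card) :
    (∃ (ρ : ℝ) (c : α → ℝ), 1 ≤ ρ ∧ (∀ x, 0 ≤ c x) ∧ (∃ x ∈ X, 0 < c x) ∧
      ∀ x ∈ X, op L c x = ρ * c x) ∨
    ∃ l : α → ℝ, (∀ x, 0 ≤ l x) ∧ ∀ x ∈ X, op L l x < l x := by
  have : Nonempty X := hX.to_subtype
  have ext : ∀ c : X → ℝ, (∀ i, 0 ≤ c i) → ∃ c' : α → ℝ, (∀ x, 0 ≤ c' x) ∧ (∀ i : X, c' i = c i) ∧
      ∀ i : X, op L c' i = ∑ j : X, mat L i j * c j := by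
    intro c hc
    have e : ∀ i : X, (if h : (i : α) ∈ X then c ⟨i, h⟩ else 0) = c i := fun i => dif_pos i.2
    refine ⟨fun x => if h : x ∈ X then c ⟨x, h⟩ else 0, fun x => ?_, e, fun i => ?_⟩
    · dsimp only
      split_ifs
      exacts [hc _, le_rfl]
    · rw [op_eq hL, ← sum_coe_sort X]
      exact sum_congr rfl (fun j _ => by rw [e])
  rcases dich (fun i j : X => mat L i j) (fun i j => mat_nonneg hL _ _) (fun i j => mat_symm _ _)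
    with ⟨ρ, c, h1, h2, ⟨i, h3⟩, h4⟩ | ⟨l, h1, h2⟩
  · obtain ⟨c', a1, a2, a3⟩ := ext c h2
    exact Or.inl ⟨ρ, c', h1, a1, ⟨i, i.2, (a2 i).symm ▸ h3⟩, fun x hx =>
      (a3 ⟨x, hx⟩).trans ((h4 ⟨x, hx⟩).trans (congrArg _ (a2 ⟨x, hx⟩).symm))⟩
  · obtain ⟨c', a1, a2, a3⟩ := ext l h1
    exact Or.inr ⟨c', a1, fun x hx =>
      (a3 ⟨x, hx⟩).trans_lt ((h2 ⟨x, hx⟩).trans_eq (a2 ⟨x, hx⟩).symm)⟩

theorem excl (hL : ∀ T ∈ L, T ⊆ X ∧ 2 ≤ T.card) {c l : α → ℝ} (c0 : ∀ x ∈ X, 0 ≤ c x)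
    (c1 : ∃ x ∈ X, 0 < c x) (c2 : ∀ x ∈ X, c x ≤ op L c x) (l0 : ∀ x ∈ X, 0 ≤ l x)
    (l1 : ∀ x ∈ X, op L l x < l x) : False := by
  have e : ∑ x ∈ X, l x * op L c x = ∑ x ∈ X, c x * op L l x := by
    simp only [op_eq hL, mul_sum]
    rw [sum_comm]
    refine sum_congr rfl (fun x _ => sum_congr rfl (fun y _ => ?_))
    rw [mat_symm y x]
    ring
  obtain ⟨x0, hx0, hp⟩ := c1
  have a : ∑ x ∈ X, c x * op L l x < ∑ x ∈ X, c x * l x :=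
    sum_lt_sum (fun x hx => mul_le_mul_of_nonneg_left (l1 x hx).le (c0 x hx))
      ⟨x0, hx0, mul_lt_mul_of_pos_left (l1 x0 hx0) hp⟩
  have b : ∑ x ∈ X, c x * l x ≤ ∑ x ∈ X, l x * op L c x :=
    sum_le_sum (fun x hx => by
      rw [mul_comm]; exact mul_le_mul_of_nonneg_left (c2 x hx) (l0 x hx))
  linarith

/-- every linear family that forces an abundant point has spectral radius at least one -/
theorem spectral_of_fc [Infinite α] (hX : X.Nonempty) (hL : ∀ T ∈ L, T ⊆ X ∧ 2 ≤ T.card)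
    (hlin : ∀ T ∈ L, ∀ T' ∈ L, T ≠ T' → (T ∩ T').card ≤ 1)
    (h : ∀ F : Finset (Finset α), (∀ A ∈ F, ∀ B ∈ F, A ∪ B ∈ F) → L ⊆ F →
      ∃ x ∈ X, F.card ≤ 2 * (F.filter (fun S => x ∈ S)).card) :
    ∃ c : α → ℝ, (∀ x ∈ X, 0 ≤ c x) ∧ (∃ x ∈ X, 0 < c x) ∧ ∀ x ∈ X, c x ≤ op L c x := by
  rcases dich2 hX hL with ⟨ρ, c, h1, h2, h3, h4⟩ | ⟨l, h1, h2⟩
  · exact ⟨c, fun x _ => h2 x, h3, fun x hx => (h4 x hx).symm ▸ le_mul_of_one_le_left (h2 x) h1⟩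
  · obtain ⟨F, hF, hLF, hlt⟩ := not_fc2 hX hL hlin h1 h2
    obtain ⟨x, hx, hle⟩ := h F hF hLF
    exact absurd (hlt x hx) (not_lt.2 hle)

theorem fc_of_spectral (hX : X.Nonempty) (hL : ∀ T ∈ L, T ⊆ X ∧ 2 ≤ T.card)
    (hlin : ∀ T ∈ L, ∀ T' ∈ L, T ≠ T' → (T ∩ T').card ≤ 1)
    (hreg : (∀ T ∈ L, T.card ≤ 3) ∨ ∃ s : ℝ, ∀ x ∈ X,
      ∑ T ∈ L.filter (fun T => x ∈ T), ((T.card : ℝ) - 1) / (2 ^ (T.card - 1) - 1) = s)
    {c : α → ℝ} (c0 : ∀ x ∈ X, 0 ≤ c x) (c1 : ∃ x ∈ X, 0 < c x) (c2 : ∀ x ∈ X, c x ≤ op L c x)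
    (F : Finset (Finset α)) (hF : ∀ A ∈ F, ∀ B ∈ F, A ∪ B ∈ F) (hLF : L ⊆ F) :
    ∃ x ∈ X, F.card ≤ 2 * (F.filter (fun S => x ∈ S)).card := by
  rcases hreg with h3 | ⟨s, hs⟩
  · by_cases h2 : ∃ T ∈ L, T.card = 2
    · obtain ⟨T, hT, h2⟩ := h2
      obtain ⟨x, hx, h⟩ := fc (X := T) (L := {T}) (s := 1) (card_pos.1 (by omega))
        (fun T' hT' => by rw [mem_singleton.1 hT']; exact ⟨Subset.refl _, h2.ge⟩)
        (fun T1 h1 T2 h2 h => absurd ((mem_singleton.1 h1).trans (mem_singleton.1 h2).symm) h)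
        (fun x hx => by
          rw [filter_singleton, if_pos hx, sum_singleton, h2]
          norm_num) le_rfl F hF (singleton_subset_iff.2 (hLF hT))
      exact ⟨x, (hL T hT).1 hx, h⟩
    push Not at h2
    have h4 : ∀ T ∈ L, T ⊆ X ∧ T.card = 3 := fun T hT => ⟨(hL T hT).1, by
      have := (hL T hT).2
      have := h3 T hT
      have := h2 T hT
      omega⟩
    rcases dich2 hX hL with ⟨ρ, d, h1, d0, d1, d2⟩ | ⟨l, h1, h2⟩
    · refine tri h4 hlin h1 (fun x _ => d0 x) d1 (fun x hx => ?_) F hF hLF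
      rw [← d2 x hx, op]
      refine sum_congr rfl (fun T hT => ?_)
      rw [(h4 T (mem_filter.1 hT).1).2]
      norm_num
    · exact (excl hL c0 c1 c2 (fun x _ => h1 x) h2).elim
  · refine fc hX hL hlin hs (not_lt.1 fun hlt => ?_) F hF hLF
    refine excl hL c0 c1 c2 (l := fun _ => 1) (fun _ _ => zero_le_one) (fun x hx => ?_)
    refine lt_of_eq_of_lt ?_ hlt
    rw [← hs x hx, op]
    refine sum_congr rfl (fun T hT => ?_)
    have := (hL T (mem_filter.1 hT).1).2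
    rw [sum_const, card_erase_of_mem (mem_filter.1 hT).2, nsmul_eq_mul, mul_one,
      Nat.cast_sub (by omega), Nat.cast_one]

end Pool.Agent.FS.SpectralFC
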